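import Pool.Agent.Y234.FP.Stm

/-!
# Project FP: homomorphisms from `k[b]/(b)^m`
-/

set_option autoImplicit false

open MvPolynomial Pool.Agent.Results.MP_94ed3e_ag.FatPoint Pool.Agent.Y234.FP

namespace Pool.Agent.Y65.FP

universe u

lemma monomial_mem (k : Type u) [Field k] (r m : ℕ) (α : Fin r → ℕ) (h : ∑ i, α i = m) :
    (∏ i, (X i : MvPolynomial (Fin r) k) ^ α i) ∈
      (Ideal.span (Set.range (X : Fin r → MvPolynomial (Fin r) k))) ^ m := by
  have h1 : (∏ i, (X i : MvPolynomial (Fin r) k) ^ α i) =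
      monomial (Finsupp.equivFunOnFinite.symm α) 1 := by
    rw [monomial_eq, C_1, one_mul, Finsupp.prod_fintype _ _ (fun i => pow_zero _)]
    rfl
  have h2 := pow_idealOfVars_eq_span (σ := Fin r) (R := k) m
  unfold idealOfVars at h2
  rw [h1, h2]
  apply Ideal.subset_span
  refine ⟨Finsupp.equivFunOnFinite.symm α, ?_, rfl⟩
  rw [Set.mem_preimage, Set.mem_singleton_iff, Finsupp.degree_eq_sum]
  exact h

lemma kills (k : Type u) [Field k] (r m : ℕ) (T : Type u) [CommRing T] [Algebra k T]
    (β : Fin r → T) (hβ : Nilp m β) (a : MvPolynomial (Fin r) k)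
    (ha : a ∈ (Ideal.span (Set.range (X : Fin r → MvPolynomial (Fin r) k))) ^ m) :
    aeval β a = 0 := by
  have h2 := pow_idealOfVars_eq_span (σ := Fin r) (R := k) m
  unfold idealOfVars at h2
  rw [h2] at ha
  have h3 : Ideal.span ((fun x => monomial x (1 : k)) '' (Finsupp.degree ⁻¹' {m})) ≤
      RingHom.ker (aeval β : MvPolynomial (Fin r) k →ₐ[k] T) := by
    rw [Ideal.span_le]
    rintro _ ⟨α, hα, rfl⟩
    rw [Set.mem_preimage, Set.mem_singleton_iff, Finsupp.degree_eq_sum] at hα
    rw [SetLike.mem_coe, RingHom.mem_ker]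
    show aeval β (monomial α (1 : k)) = 0
    rw [aeval_monomial, map_one, one_mul, Finsupp.prod_fintype _ _ (fun i => pow_zero _)]
    exact hβ (fun i => α i) hα
  exact h3 ha

lemma nilp (k : Type u) [Field k] (r m : ℕ) (T : Type u) [CommRing T] [Algebra k T]
    (f : Bq k r m →ₐ[k] T) : Nilp m (fun i => f (Ideal.Quotient.mk _ (X i))) := by
  intro α hα
  have h1 : ∏ i, f (Ideal.Quotient.mk _ (X i)) ^ α i =
      f (Ideal.Quotient.mk _ (∏ i, (X i : MvPolynomial (Fin r) k) ^ α i)) := by
    rw [map_prod, map_prod]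
    exact Finset.prod_congr rfl fun i _ => by rw [map_pow, map_pow]
  rw [h1, Ideal.Quotient.eq_zero_iff_mem.2 (monomial_mem k r m α hα), map_zero]

theorem t_BH : St_BH.{u} := by
  intro k _ r m
  refine ⟨fun T _ _ =>
    { toFun := fun f => ⟨fun i => f (Ideal.Quotient.mk _ (X i)), nilp k r m T f⟩
      invFun := fun β => Ideal.Quotient.liftₐ _ (aeval β.1) (fun a ha => kills k r m T β.1 β.2 a ha)
      left_inv := ?_
      right_inv := ?_ }, fun T _ _ f i => rfl⟩
  · intro f
    apply Ideal.Quotient.algHom_ext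
    apply MvPolynomial.algHom_ext
    intro i
    simp
  · intro β
    apply Subtype.ext
    funext i
    simp

end Pool.Agent.Y65.FP
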